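import Pool.Agent.helper56.SGE.Vx

/-!
# Module C5: the two triangulations of a ladder program have no common face
-/

set_option autoImplicit false

namespace Pool.Agent.helper73.SGE

open Pool.Agent.helper56.SGE Vx

variable {S : Slp}

/-! ### Lists of consecutive pairs -/

theorem pairs_nil {α : Type*} (x y : α) : pairs (x :: [] ++ [y]) = [(x, y)] := rfl

theorem pairs_cons {α : Type*} (x c y : α) (l : List α) :
    pairs (x :: (c :: l) ++ [y]) = (x, c) :: pairs (c :: l ++ [y]) := rfl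

theorem pairs_mem {α : Type*} {x y : α} {l : List α} {a b : α}
    (h : (a, b) ∈ pairs (x :: l ++ [y])) : a ∈ x :: l ∧ b ∈ l ++ [y] := by
  induction l generalizing x with
  | nil =>
    rw [pairs_nil] at h
    simpa using h
  | cons c l ih =>
    rw [pairs_cons, List.mem_cons] at h
    rcases h with h | h
    · simp only [Prod.mk.injEq] at h
      simp [h.1, h.2]
    · have := ih h
      simp only [List.cons_append, List.mem_cons] at this ⊢
      tauto

theorem pairs_head {α : Type*} {x y z : α} {l : List α} {b : α} (hx : x ∉ z :: l)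
    (h : (x, b) ∈ pairs (x :: (z :: l) ++ [y])) : b = z := by
  rw [pairs_cons, List.mem_cons] at h
  rcases h with h | h
  · simp only [Prod.mk.injEq] at h
    exact h.2
  · exact absurd (pairs_mem h).1 hx

theorem pairs_last {α : Type*} {x y z : α} {l : List α} {a : α} (hy : y ∉ l ++ [z])
    (h : (a, y) ∈ pairs (x :: (l ++ [z]) ++ [y])) : a = z := by
  induction l generalizing x with
  | nil =>
    rw [List.nil_append, pairs_cons, pairs_nil] at h
    simp only [List.mem_cons, Prod.mk.injEq, List.not_mem_nil, or_false, List.nil_append] at h hy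
    tauto
  | cons c l ih =>
    have hy' : y ∉ l ++ [z] := fun h' => hy (by simp only [List.cons_append, List.mem_cons]; tauto)
    have hyc : y ≠ c := fun h' => hy (by simp [h'])
    have h : (a, y) ∈ pairs (x :: (c :: (l ++ [z])) ++ [y]) := h
    rw [pairs_cons, List.mem_cons] at h
    rcases h with h | h
    · simp only [Prod.mk.injEq] at h
      exact absurd h.2 hyc
    · exact ih hy' h

/-! ### Wires -/

theorem src_lt (h : S.WF) {w : ℕ} (h1 : 2 ≤ w) (h2 : w ≤ 2 * S.N + 1) : S.src w < w / 2 := by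
  unfold Slp.src
  split_ifs
  · exact h.A_lt _ (by omega) (by omega)
  · exact h.B_lt _ (by omega) (by omega)

theorem prev_lt {w u : ℕ} (h : S.prev w = some u) : u < w := by
  have := List.mem_of_getLast? h
  exact List.mem_range.1 (List.mem_filter.1 this).1

theorem L1_wr (S : Slp) (w : ℕ) : ∃ i, S.L1 (wr w) = r4 i ∨ S.L1 (wr w) = p1 i := by
  unfold Slp.L1
  dsimp only
  split_ifs
  · exact ⟨_, Or.inl rfl⟩
  · exact ⟨_, Or.inl rfl⟩
  · exact ⟨_, Or.inr rfl⟩

theorem lm_eq (S : Slp) (i : ℕ) (k : Bool) (d : Vx) : S.lm i k d = d ∨ ∃ u, S.lm i k d = wm u := by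
  unfold Slp.lm
  cases S.last? i k with
  | none => exact Or.inl rfl
  | some u => exact Or.inr ⟨u, rfl⟩

theorem pv_eq (S : Slp) (c : ℕ → Vx) (w : ℕ) (d : Vx) :
    S.pv c w d = d ∨ ∃ u < w, S.pv c w d = c u := by
  unfold Slp.pv
  cases h : S.prev w with
  | none => exact Or.inl rfl
  | some u => exact Or.inr ⟨u, prev_lt h, rfl⟩

theorem L1_wl (S : Slp) (w : ℕ) :
    S.L1 (wl w) = s0 ∨ S.L1 (wl w) = O ∨ ∃ u, S.L1 (wl w) = wm u := by
  unfold Slp.L1
  dsimp only
  split_ifs
  · exact Or.inl rfl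
  · exact Or.inr (lm_eq S _ _ _)

theorem L1_Y (S : Slp) (j : ℕ) :
    S.L1 (Y j) = q2 j ∨ S.L1 (Y j) = q3 j ∨ ∃ u, S.L1 (Y j) = wm u := by
  unfold Slp.L1
  dsimp only
  split_ifs
  · exact Or.inl rfl
  · exact Or.inr (lm_eq S _ _ _)

theorem R1_wm (h : S.WF) {w : ℕ} (h1 : 2 ≤ w) (h2 : w ≤ 2 * S.N + 1) :
    S.R1 (wm w) = s0 ∨ ∃ i < w / 2, S.R1 (wm w) = r4 i ∨ S.R1 (wm w) = q3 i ∨
      S.R1 (wm w) = X i := by
  have hs := src_lt h h1 h2
  unfold Slp.R1
  dsimp only
  split_ifs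
  · exact Or.inl rfl
  · exact Or.inr ⟨_, hs, Or.inl rfl⟩
  · exact Or.inr ⟨_, hs, Or.inr (Or.inl rfl)⟩
  · exact Or.inr ⟨_, hs, Or.inr (Or.inr rfl)⟩

theorem R1_wl (h : S.WF) {w : ℕ} (h1 : 2 ≤ w) (h2 : w ≤ 2 * S.N + 1) :
    S.R1 (wl w) = r0 ∨ (∃ u < w, S.R1 (wl w) = wl u) ∨ ∃ i < w / 2, S.R1 (wl w) = Y i ∨
      S.R1 (wl w) = q3 i ∨ S.R1 (wl w) = X i := by
  have hs := src_lt h h1 h2
  unfold Slp.R1
  dsimp only
  rcases pv_eq S wl w (if S.src w = 0 then r0 else if S.kind w = false then Y (S.src w)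
      else if S.ty (S.src w) = .f then q3 (S.src w) else X (S.src w)) with h' | h'
  · rw [h']
    split_ifs
    · exact Or.inl rfl
    · exact Or.inr (Or.inr ⟨_, hs, Or.inl rfl⟩)
    · exact Or.inr (Or.inr ⟨_, hs, Or.inr (Or.inl rfl)⟩)
    · exact Or.inr (Or.inr ⟨_, hs, Or.inr (Or.inr rfl)⟩)
  · exact Or.inr (Or.inl h')

/-! ### No common fan faces -/

/-- the vertex `m` is not an inner vertex or it does not give the face `a c b` of the first
triangulation -/
def Bad (S : Slp) (a c b m : Vx) : Prop :=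
  m = O ∨ m = H ∨ m = V ∨ ¬ (S.L1 m = a ∨ S.L1 m = c ∨ S.L1 m = b) ∨
    ¬ (S.R1 m = a ∨ S.R1 m = c ∨ S.R1 m = b)

/-- `a c b` is not a fan face of the first triangulation -/
def NF (S : Slp) (a c b : Vx) : Prop := Bad S a c b a ∧ Bad S a c b c ∧ Bad S a c b b

theorem bad_wr {a c b : Vx} (w : ℕ) (h : ∀ i, r4 i ≠ a ∧ r4 i ≠ c ∧ r4 i ≠ b ∧ p1 i ≠ a ∧
    p1 i ≠ c ∧ p1 i ≠ b) : Bad S a c b (wr w) := by
  refine Or.inr (Or.inr (Or.inr (Or.inl ?_)))
  obtain ⟨i, e | e⟩ := L1_wr S w
  · rw [e]; have := h i; tauto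
  · rw [e]; have := h i; tauto

/-- wires `wl`, by the left neighbour -/
theorem bad_wl {a c b : Vx} (w : ℕ) (h : ∀ u, s0 ≠ a ∧ s0 ≠ c ∧ s0 ≠ b ∧ O ≠ a ∧ O ≠ c ∧ O ≠ b ∧
    wm u ≠ a ∧ wm u ≠ c ∧ wm u ≠ b) : Bad S a c b (wl w) := by
  refine Or.inr (Or.inr (Or.inr (Or.inl ?_)))
  rcases L1_wl S w with e | e | ⟨u, e⟩
  · rw [e]; have := h 0; tauto
  · rw [e]; have := h 0; tauto
  · rw [e]; have := h u; tauto

/-- wires `wl`, by the right neighbour -/
theorem bad_wl' (hS : S.WF) {a c b : Vx} {w : ℕ} (h1 : 2 ≤ w) (h2 : w ≤ 2 * S.N + 1)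
    (h : ∀ t : Vx, t = a ∨ t = c ∨ t = b → t ≠ r0 ∧ (∀ u < w, t ≠ wl u) ∧
      ∀ i < w / 2, t ≠ Y i ∧ t ≠ q3 i ∧ t ≠ X i) : Bad S a c b (wl w) := by
  refine Or.inr (Or.inr (Or.inr (Or.inr fun ht => ?_)))
  obtain ⟨g1, g2, g3⟩ := h _ ht
  rcases R1_wl hS h1 h2 with e | ⟨u, hu, e⟩ | ⟨i, hi, e⟩
  · exact g1 e
  · exact g2 u hu e
  · have := g3 i hi; tauto

/-- wires `wm`, by the right neighbour -/
theorem bad_wm (hS : S.WF) {a c b : Vx} {w : ℕ} (h1 : 2 ≤ w) (h2 : w ≤ 2 * S.N + 1)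
    (h : ∀ t : Vx, t = a ∨ t = c ∨ t = b → t ≠ s0 ∧
      ∀ i < w / 2, t ≠ r4 i ∧ t ≠ q3 i ∧ t ≠ X i) : Bad S a c b (wm w) := by
  refine Or.inr (Or.inr (Or.inr (Or.inr fun ht => ?_)))
  obtain ⟨g1, g3⟩ := h _ ht
  rcases R1_wm hS h1 h2 with e | ⟨i, hi, e⟩
  · exact g1 e
  · have := g3 i hi; tauto

theorem bad_Y {a c b : Vx} (j : ℕ) (ht : S.ty j ≠ .f) (h : ∀ u, q3 j ≠ a ∧
    q3 j ≠ c ∧ q3 j ≠ b ∧ wm u ≠ a ∧ wm u ≠ c ∧ wm u ≠ b) : Bad S a c b (Y j) := by
  refine Or.inr (Or.inr (Or.inr (Or.inl ?_)))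
  have e : S.L1 (Y j) = q3 j ∨ ∃ u, S.L1 (Y j) = wm u := by
    unfold Slp.L1
    dsimp only
    rw [if_neg ht]
    exact lm_eq S _ _ _
  rcases e with e | ⟨u, e⟩
  · rw [e]; have := h 0; tauto
  · rw [e]; have := h u; tauto

theorem nf_wires (hS : S.WF) {w : ℕ} (h1 : 2 ≤ w) (h2 : w ≤ 2 * S.N + 1) {c : Vx}
    (hc : Bad S (wm w) c (wl w) c) (hc' : c ≠ r0 ∧ c ≠ s0 ∧ (∀ u < w, c ≠ wl u) ∧
      ∀ i < w / 2, c ≠ r4 i ∧ c ≠ Y i ∧ c ≠ q3 i ∧ c ≠ X i) : NF S (wm w) c (wl w) := by
  refine ⟨bad_wm hS h1 h2 ?_, hc, bad_wl' hS h1 h2 ?_⟩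
  · rintro t (rfl | rfl | rfl)
    · simp
    · exact ⟨hc'.2.1, fun i hi => ⟨(hc'.2.2.2 i hi).1, (hc'.2.2.2 i hi).2.2.1,
        (hc'.2.2.2 i hi).2.2.2⟩⟩
    · simp
  · rintro t (rfl | rfl | rfl)
    · simp
    · exact ⟨hc'.1, hc'.2.2.1, fun i hi => (hc'.2.2.2 i hi).2⟩
    · simp
      omega

theorem pk_eq (S : Slp) (j : ℕ) : S.pk j = wl (2 * (j + 1)) ∨ S.pk j = B1 := by
  unfold Slp.pk
  split_ifs
  · exact Or.inl rfl
  · exact Or.inr rfl

theorem pa_eq (S : Slp) (j : ℕ) : S.pa j = a3 (j + 1) ∨ S.pa j = anc := by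
  unfold Slp.pa
  split_ifs
  · exact Or.inl rfl
  · exact Or.inr rfl

theorem nf (h : S.WF) {m : Vx} (hv : S.Valid m) (h0 : m ≠ O) (h1 : m ≠ H) (h2 : m ≠ V) :
    NF S (S.L2 m) m (S.R2 m) := by
  cases m with
  | O => exact absurd rfl h0
  | H => exact absurd rfl h1
  | V => exact absurd rfl h2
  | p0 => exact ⟨bad_wl _ (by simp [Slp.L2, Slp.R2]), by simp [Bad, Slp.L1, Slp.L2, Slp.R2],
      by simp [Bad, Slp.L1, Slp.L2, Slp.R2]⟩
  | q0 => refine ⟨?_, ?_, ?_⟩ <;> simp [Bad, Slp.L1, Slp.L2, Slp.R2]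
  | q0p =>
    have hN := h.one_le
    refine ⟨bad_wl' h le_rfl (by omega) ?_, ?_, ?_⟩
    · intro t ht
      simp only [Slp.L2, Slp.R2] at ht
      rcases ht with rfl | rfl | rfl <;> simp
      omega
    · simp [Bad, Slp.L1, Slp.L2, Slp.R2]
    · simp [Bad, Slp.L1, Slp.L2, Slp.R2]
  | s0 => refine ⟨?_, ?_, ?_⟩ <;> simp [Bad, Slp.L1, Slp.R1, Slp.L2, Slp.R2]
  | r0 => refine ⟨?_, ?_, ?_⟩ <;> simp [Bad, Slp.L1, Slp.R1, Slp.L2, Slp.R2]
  | A1 => refine ⟨?_, ?_, ?_⟩ <;> simp [Bad, Slp.L1, Slp.R1, Slp.L2, Slp.R2]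
  | A2 => refine ⟨?_, ?_, ?_⟩ <;> simp [Bad, Slp.L1, Slp.R1, Slp.L2, Slp.R2]
  | B1 => refine ⟨?_, ?_, ?_⟩ <;> simp [Bad, Slp.L1, Slp.R1, Slp.L2, Slp.R2]
  | B2 => refine ⟨?_, ?_, ?_⟩ <;> simp [Bad, Slp.L1, Slp.R1, Slp.L2, Slp.R2]
  | M => refine ⟨?_, ?_, ?_⟩ <;> simp [Bad, Slp.L1, Slp.R1, Slp.L2, Slp.R2]
  | J => refine ⟨?_, ?_, ?_⟩ <;> simp [Bad, Slp.L1, Slp.R1, Slp.L2, Slp.R2]
  | n => refine ⟨?_, ?_, ?_⟩ <;> simp [Bad, Slp.L1, Slp.R1, Slp.L2, Slp.R2]
  | anc => refine ⟨?_, ?_, ?_⟩ <;> simp [Bad, Slp.L1, Slp.R1, Slp.L2, Slp.R2]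
  | p1 j =>
    have e : ∀ t, S.ty j = t → NF S (S.L2 (p1 j)) (p1 j) (S.R2 (p1 j)) := by
      intro t ht
      cases t
      · simp only [Slp.L2, Slp.R2, Slp.c4, ht]
        refine ⟨by simp [Bad, Slp.L1, Slp.R1, ht], by simp [Bad, Slp.L1], ?_⟩
        simpa using bad_wl _ (by simp)
      · simp only [Slp.L2, Slp.R2, Slp.c4, ht]
        refine ⟨by simp [Bad, Slp.L1, Slp.R1, ht], by simp [Bad, Slp.L1], ?_⟩
        simpa using bad_wl _ (by simp)
      · simp only [Slp.L2, Slp.R2, Slp.c4, ht]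
        refine ⟨by simp [Bad, Slp.L1, Slp.R1, ht], by simp [Bad, Slp.L1], ?_⟩
        simp [Bad, Slp.L1, Slp.R1, ht]
    exact e _ rfl
  | q2 j =>
    have hj : 1 ≤ j ∧ j ≤ S.N := hv
    have e : ∀ t, S.ty j = t → NF S (S.L2 (q2 j)) (q2 j) (S.R2 (q2 j)) := by
      intro t ht
      cases t
      · simp only [Slp.L2, Slp.R2, ht]
        exact nf_wires h (by omega) (by omega) (by simp [Bad, Slp.L1]) (by simp)
      · simp only [Slp.L2, Slp.R2, ht]
        rcases pk_eq S j with e | e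
        · rw [e]
          exact ⟨bad_wl _ (by simp), by simp [Bad, Slp.L1], bad_Y j (by simp [ht]) (by simp)⟩
        · rw [e]
          exact ⟨by simp [Bad, Slp.L1], by simp [Bad, Slp.L1], bad_Y j (by simp [ht]) (by simp)⟩
      · simp only [Slp.L2, Slp.R2, ht]
        exact nf_wires h (by omega) (by omega) (by simp [Bad, Slp.L1]) (by simp)
    exact e _ rfl
  | X j =>
    have hj : 1 ≤ j ∧ j ≤ S.N := hv
    have e : ∀ t, S.ty j = t → NF S (S.L2 (X j)) (X j) (S.R2 (X j)) := by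
      intro t ht
      cases t
      · simp only [Slp.L2, Slp.R2, ht]
        rcases pk_eq S j with e | e
        · rw [e]
          exact ⟨bad_wl _ (by simp), by simp [Bad, Slp.L1, ht], bad_Y j (by simp [ht]) (by simp)⟩
        · rw [e]
          exact ⟨by simp [Bad, Slp.L1], by simp [Bad, Slp.L1, ht],
            bad_Y j (by simp [ht]) (by simp)⟩
      · simp only [Slp.L2, Slp.R2, ht]
        exact nf_wires h (by omega) (by omega) (by simp [Bad, Slp.L1, ht]) (by simp; omega)
      · simp only [Slp.L2, Slp.R2, ht]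
        exact ⟨by simp [Bad, Slp.L1, Slp.R1, ht], by simp [Bad, Slp.L1, ht],
          bad_wl _ (by simp)⟩
    exact e _ rfl
  | q3 j =>
    have hj : 1 ≤ j ∧ j ≤ S.N := hv
    have e : ∀ t, S.ty j = t → NF S (S.L2 (q3 j)) (q3 j) (S.R2 (q3 j)) := by
      intro t ht
      cases t
      · simp only [Slp.L2, Slp.R2, ht]
        exact nf_wires h (by omega) (by omega) (by simp [Bad, Slp.L1, ht]) (by simp; omega)
      · simp only [Slp.L2, Slp.R2, ht]
        exact nf_wires h (by omega) (by omega) (by simp [Bad, Slp.L1, ht]) (by simp; omega)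
      · simp only [Slp.L2, Slp.R2, ht]
        exact nf_wires h (by omega) (by omega) (by simp [Bad, Slp.L1, ht]) (by simp; omega)
    exact e _ rfl
  | r4 j =>
    have e : ∀ t, S.ty j = t → NF S (S.L2 (r4 j)) (r4 j) (S.R2 (r4 j)) := by
      intro t ht
      cases t
      · simp only [Slp.L2, Slp.R2, Slp.c2, ht]
        exact ⟨by simp [Bad, Slp.L1, ht], by simp [Bad, Slp.L1], bad_wl _ (by simp)⟩
      · simp only [Slp.L2, Slp.R2, Slp.c2, ht]
        exact ⟨by simp [Bad, Slp.L1, ht], by simp [Bad, Slp.L1], bad_wl _ (by simp)⟩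
      · simp only [Slp.L2, Slp.R2, Slp.c2, ht]
        exact ⟨by simp [Bad, Slp.L1], by simp [Bad, Slp.L1], bad_wl _ (by simp)⟩
    exact e _ rfl
  | Y j =>
    simp only [Slp.L2, Slp.R2]
    have hY : Bad S (S.pk j) (Y j) (a5 j) (Y j) := by
      by_cases ht : S.ty j = .f
      · rcases pk_eq S j with e | e <;> simp [Bad, Slp.L1, ht, e]
      · rcases pk_eq S j with e | e <;> exact bad_Y j ht (by simp [e])
    refine ⟨?_, hY, by simp only [Bad, Slp.L1]; rcases pk_eq S j with e | e <;> simp [e]⟩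
    rcases pk_eq S j with e | e
    · rw [e]
      exact bad_wl _ (by simp)
    · rw [e]
      simp [Bad, Slp.L1]
  | a5 j =>
    simp only [Slp.L2, Slp.R2]
    rcases pa_eq S j with e | e
    · rw [e]
      refine ⟨?_, ?_, ?_⟩ <;> simp [Bad, Slp.L1]
    · rw [e]
      refine ⟨?_, ?_, ?_⟩ <;> simp [Bad, Slp.L1]
  | a3 j => refine ⟨?_, ?_, ?_⟩ <;> simp [Bad, Slp.L1, Slp.L2, Slp.R2]
  | wr w =>
    simp only [Slp.L2, Slp.R2]
    split_ifs
    · exact ⟨by simp [Bad, Slp.L1], bad_wr _ (by simp), bad_wl _ (by simp)⟩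
    · exact ⟨by simp [Bad, Slp.L1], bad_wr _ (by simp), bad_wl _ (by simp)⟩
  | wm w =>
    have hw : 2 ≤ w ∧ w ≤ 2 * S.N + 1 := hv
    simp only [Slp.L2, Slp.R2]
    refine ⟨bad_wr _ (by simp), bad_wm h hw.1 hw.2 ?_, bad_wl' h hw.1 hw.2 ?_⟩
    · rintro t (rfl | rfl | rfl) <;> simp
    · rintro t (rfl | rfl | rfl) <;> simp
      omega
  | wl w =>
    have hw : 2 ≤ w ∧ w ≤ 2 * S.N + 1 := hv
    simp only [Slp.L2, Slp.R2]
    split_ifs
    · refine ⟨by simp [Bad, Slp.L1], bad_wl' h hw.1 hw.2 ?_, by simp [Bad]⟩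
      rintro t (rfl | rfl | rfl) <;> simp
      omega
    · refine ⟨by simp [Bad, Slp.L1], bad_wl' h hw.1 hw.2 ?_, by simp [Bad, Slp.L1]⟩
      rintro t (rfl | rfl | rfl) <;> simp
      omega
    · refine ⟨by simp [Bad, Slp.L1], bad_wl' h hw.1 hw.2 ?_, by simp [Bad, Slp.L1]⟩
      rintro t (rfl | rfl | rfl) <;> simp
      omega

/-! ### The paths -/

theorem mem_blk1 {i : ℕ} {v : Vx} (hv : v ∈ S.blk1 i) : v ≠ O ∧ v ≠ H ∧ v ≠ V := by
  unfold Slp.blk1 at hv
  split_ifs at hv <;> simp only [List.mem_append, List.mem_map, List.mem_cons,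
    List.not_mem_nil, or_false, List.mem_reverse] at hv <;> aesop

theorem mem_blks1 {k : ℕ} {v : Vx} (hv : v ∈ S.blks1 k) : v ≠ O ∧ v ≠ H ∧ v ≠ V := by
  induction k with
  | zero =>
    simp only [Slp.blks1, List.mem_map] at hv
    aesop
  | succ k ih =>
    simp only [Slp.blks1, List.mem_append] at hv
    rcases hv with hv | hv
    · exact mem_blk1 hv
    · exact ih hv

theorem mem_anch {k : ℕ} {v : Vx} (hv : v ∈ Slp.anch k) : v ≠ O ∧ v ≠ H ∧ v ≠ V := by
  induction k with
  | zero => simp [Slp.anch] at hv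
  | succ k ih =>
    simp only [Slp.anch, List.mem_append, List.mem_cons, List.not_mem_nil, or_false] at hv
    rcases hv with (rfl | rfl) | hv
    · simp
    · simp
    · exact ih hv

theorem mem_path1 {v : Vx} (hv : v ∈ S.path1) : v ≠ O ∧ v ≠ H ∧ v ≠ V := by
  unfold Slp.path1 Slp.con1 at hv
  simp only [List.mem_append] at hv
  rcases hv with (hv | hv) | hv
  · exact mem_blks1 hv
  · simp only [List.mem_map, List.mem_cons, List.not_mem_nil, or_false,
      List.mem_reverse] at hv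
    aesop
  · exact mem_anch hv

theorem path1_head (h : S.WF) : ∃ l, S.path1 = p1 S.N :: l := by
  obtain ⟨k, hk⟩ := Nat.exists_eq_add_of_le' h.one_le
  unfold Slp.path1
  rw [hk, Slp.blks1, Slp.blk1, if_pos hk.symm]
  exact ⟨_, rfl⟩

theorem anch_last (k : ℕ) : ∃ l, Slp.anch (k + 1) = l ++ [a3 1] := by
  induction k with
  | zero => exact ⟨[a5 1], rfl⟩
  | succ k ih =>
    obtain ⟨l, hl⟩ := ih
    rw [Slp.anch, hl]
    exact ⟨[a5 (k + 1 + 1), a3 (k + 1 + 1)] ++ l, by simp⟩

theorem path1_last (h : S.WF) : ∃ l, S.path1 = l ++ [a3 1] := by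
  obtain ⟨k, hk⟩ := Nat.exists_eq_add_of_le' h.one_le
  unfold Slp.path1
  rw [hk]
  obtain ⟨l, hl⟩ := anch_last k
  rw [hl]
  exact ⟨_, (List.append_assoc _ _ _).symm⟩

/-- consecutive pairs of the first path -/
theorem pairs1 (h : S.WF) {a b : Vx} (hab : (a, b) ∈ pairs (V :: S.path1 ++ [O])) :
    a ≠ O ∧ b ≠ V ∧ (a = V → b = p1 S.N) ∧ (b = O → a = a3 1) := by
  have h1 := pairs_mem hab
  refine ⟨?_, ?_, ?_, ?_⟩
  · rintro rfl
    simp only [List.mem_cons, reduceCtorEq, false_or] at h1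
    exact (mem_path1 h1.1).1 rfl
  · rintro rfl
    simp only [List.mem_append, List.mem_cons, reduceCtorEq, List.not_mem_nil, or_false] at h1
    exact (mem_path1 h1.2).2.2 rfl
  · rintro rfl
    obtain ⟨l, hl⟩ := path1_head h
    rw [hl] at hab
    refine pairs_head ?_ hab
    rw [← hl]
    exact fun hh => (mem_path1 hh).2.2 rfl
  · rintro rfl
    obtain ⟨l, hl⟩ := path1_last h
    rw [hl] at hab
    refine pairs_last ?_ hab
    rw [← hl]
    exact fun hh => (mem_path1 hh).1 rfl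

theorem mem_blk2 {j : ℕ} (hj : 1 ≤ j ∧ j ≤ S.N) :
    ∀ v ∈ S.blk2 j, S.Valid v ∧ v ≠ O ∧ v ≠ H ∧ v ≠ V := by
  unfold Slp.blk2 Slp.c5 Slp.c4 Slp.c3 Slp.c2
  cases ht : S.ty j <;> simp [Slp.Valid, hj] <;> omega

theorem mem_blks2 {k : ℕ} (hk : k ≤ S.N) {v : Vx} (hv : v ∈ S.blks2 k) :
    S.Valid v ∧ v ≠ O ∧ v ≠ H ∧ v ≠ V := by
  induction k with
  | zero => simp [Slp.blks2] at hv
  | succ k ih =>
    simp only [Slp.blks2, List.mem_append] at hv
    rcases hv with hv | hv
    · exact mem_blk2 ⟨by omega, hk⟩ _ hv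
    · exact ih (by omega) hv

theorem mem_path2 {v : Vx} (hv : v ∈ S.path2) : S.Valid v ∧ v ≠ O ∧ v ≠ H ∧ v ≠ V := by
  unfold Slp.path2 at hv
  simp only [List.mem_append] at hv
  rcases hv with (hv | hv) | hv
  · simp only [List.mem_cons, List.not_mem_nil, or_false] at hv
    rcases hv with rfl | rfl | rfl | rfl | rfl | rfl <;> simp [Slp.Valid]
  · exact mem_blks2 le_rfl hv
  · simp only [List.mem_cons, List.not_mem_nil, or_false] at hv
    rcases hv with rfl | rfl | rfl | rfl | rfl <;> simp [Slp.Valid]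

/-- consecutive vertices of the second path -/
def Nx (a b : Vx) : Prop :=
  b ≠ H ∧ (a = H → b = anc) ∧ a ≠ O ∧ (a = p0 → b = q0p) ∧
    (∀ j, a = p1 j → b = wl (2 * j + 1) ∨ b = X j) ∧ (∀ j, a = r4 j → b = wl (2 * j))

/-- vertices without condition on the next vertex -/
def Free (a : Vx) : Prop :=
  a ≠ H ∧ a ≠ O ∧ a ≠ p0 ∧ (∀ j, a ≠ p1 j) ∧ ∀ j, a ≠ r4 j

theorem Nx.free {a b : Vx} (h : Free a) (hb : b ≠ H) : Nx a b :=
  ⟨hb, fun e => absurd e h.1, h.2.1, fun e => absurd e h.2.2.1,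
    fun j e => absurd e (h.2.2.2.1 j), fun j e => absurd e (h.2.2.2.2 j)⟩

theorem chain_blks2 (S : Slp) (k : ℕ) : ∀ a, Free a →
    List.IsChain Nx (a :: (S.blks2 k ++ [p0, q0p, s0, r0, q0, O])) := by
  induction k with
  | zero =>
    intro a ha
    rw [Slp.blks2, List.nil_append, List.isChain_cons_cons]
    exact ⟨Nx.free ha (by simp), by simp [Nx]⟩
  | succ k ih =>
    intro a ha
    have h1 := ih (wl (2 * (k + 1))) (by simp [Free])
    rw [Slp.blks2, List.append_assoc]
    unfold Slp.blk2 Slp.c5 Slp.c4 Slp.c3 Slp.c2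
    cases ht : S.ty (k + 1) <;>
    · simp only [List.cons_append, List.nil_append, List.append_assoc,
        List.isChain_cons_cons]
      refine ⟨Nx.free ha (by simp), ?_⟩
      simp only [h1, and_true]
      simp [Nx]

theorem chain_path2 (S : Slp) : List.IsChain Nx (H :: S.path2 ++ [O]) := by
  have h1 := chain_blks2 S S.N B1 (by simp [Free])
  unfold Slp.path2
  simp only [List.cons_append, List.nil_append, List.append_assoc, List.isChain_cons_cons]
  simp only [h1, and_true]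
  simp [Nx]

theorem pairs_of_chain {α : Type*} {R : α → α → Prop} {l : List α} (h : List.IsChain R l)
    {a b : α} (hab : (a, b) ∈ pairs l) : R a b := by
  induction l with
  | nil => simp [pairs] at hab
  | cons x l ih =>
    cases l with
    | nil => simp [pairs] at hab
    | cons y l =>
      rw [List.isChain_cons_cons] at h
      have e : pairs (x :: y :: l) = (x, y) :: pairs (y :: l) := rfl
      rw [e, List.mem_cons] at hab
      rcases hab with hab | hab
      · simp only [Prod.mk.injEq] at hab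
        rw [hab.1, hab.2]
        exact h.1
      · exact ih h.2 hab

theorem pairs2 {a b : Vx} (hab : (a, b) ∈ pairs (H :: S.path2 ++ [O])) : Nx a b :=
  pairs_of_chain (chain_path2 S) hab

theorem L1_eq_V {m : Vx} (hm : S.L1 m = V) (h0 : m ≠ O) :
    m = p0 ∨ (∃ j, m = p1 j) ∨ ∃ j, m = r4 j := by
  cases m with
  | O => exact absurd rfl h0
  | p0 => exact Or.inl rfl
  | p1 j => exact Or.inr (Or.inl ⟨j, rfl⟩)
  | r4 j => exact Or.inr (Or.inr ⟨j, rfl⟩)
  | wr w =>
    obtain ⟨i, e | e⟩ := L1_wr S w <;> simp [e] at hm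
  | wm w =>
    exfalso
    unfold Slp.L1 at hm
    dsimp only at hm
    rcases pv_eq S wm w (if S.src w = 0 then q0p else if S.kind w = false then q3 (S.src w)
      else if S.ty (S.src w) = .f then X (S.src w) else q2 (S.src w)) with e | ⟨u, -, e⟩
    · rw [e] at hm
      split_ifs at hm
    · rw [e] at hm
      simp at hm
  | wl w =>
    rcases L1_wl S w with e | e | ⟨u, e⟩ <;> simp [e] at hm
  | Y j =>
    rcases L1_Y S j with e | e | ⟨u, e⟩ <;> simp [e] at hm
  | X j =>
    simp only [Slp.L1] at hm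
    split_ifs at hm
  | q3 j =>
    simp only [Slp.L1] at hm
    split_ifs at hm
  | _ => simp [Slp.L1] at hm

theorem R1_ne_V {m : Vx} (h0 : m ≠ H) : S.R1 m ≠ V := by
  intro hm
  cases m with
  | H => exact h0 rfl
  | wr w =>
    unfold Slp.R1 at hm
    dsimp only at hm
    rcases pv_eq S wr w (if S.src w = 0 then p0 else if S.kind w = true then p1 (S.src w)
      else q2 (S.src w)) with e | ⟨u, -, e⟩
    · rw [e] at hm
      split_ifs at hm
    · rw [e] at hm
      simp at hm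
  | wm w =>
    simp only [Slp.R1] at hm
    split_ifs at hm
  | wl w =>
    unfold Slp.R1 at hm
    dsimp only at hm
    rcases pv_eq S wl w (if S.src w = 0 then r0 else if S.kind w = false then Y (S.src w)
      else if S.ty (S.src w) = .f then q3 (S.src w) else X (S.src w)) with e | ⟨u, -, e⟩
    · rw [e] at hm
      split_ifs at hm
    · rw [e] at hm
      simp at hm
  | q2 j =>
    simp only [Slp.R1] at hm
    split_ifs at hm
  | X j =>
    simp only [Slp.R1] at hm
    split_ifs at hm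
  | q3 j =>
    simp only [Slp.R1] at hm
    split_ifs at hm
  | r4 j =>
    simp only [Slp.R1] at hm
    split_ifs at hm
  | a3 j =>
    simp only [Slp.R1] at hm
    split_ifs at hm
  | _ => simp [Slp.R1] at hm

theorem L2_eq_H {m : Vx} (hm : S.L2 m = H) (h0 : m ≠ O) : m = anc := by
  cases m with
  | O => exact absurd rfl h0
  | anc => rfl
  | p1 j =>
    simp only [Slp.L2, Slp.c4] at hm
    split at hm <;> simp at hm
  | q2 j =>
    simp only [Slp.L2] at hm
    split at hm
    · simp at hm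
    · rcases pk_eq S j with e | e <;> simp [e] at hm
    · simp at hm
  | X j =>
    simp only [Slp.L2] at hm
    split at hm
    · rcases pk_eq S j with e | e <;> simp [e] at hm
    · simp at hm
    · simp at hm
  | q3 j =>
    simp only [Slp.L2] at hm
    split at hm <;> simp at hm
  | r4 j =>
    simp only [Slp.L2, Slp.c2] at hm
    split at hm <;> simp at hm
  | Y j =>
    simp only [Slp.L2] at hm
    rcases pk_eq S j with e | e <;> simp [e] at hm
  | a5 j =>
    simp only [Slp.L2] at hm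
    rcases pa_eq S j with e | e <;> simp [e] at hm
  | wr w =>
    simp only [Slp.L2] at hm
    split_ifs at hm
  | wl w =>
    simp only [Slp.L2] at hm
    split_ifs at hm
  | _ => simp [Slp.L2] at hm

theorem R2_ne_H {m : Vx} (h0 : m ≠ V) : S.R2 m ≠ H := by
  intro hm
  cases m with
  | V => exact h0 rfl
  | p1 j =>
    simp only [Slp.R2] at hm
    split_ifs at hm
  | q2 j =>
    simp only [Slp.R2] at hm
    split at hm <;> simp at hm
  | X j =>
    simp only [Slp.R2] at hm
    split at hm <;> simp at hm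
  | q3 j =>
    simp only [Slp.R2] at hm
    split at hm <;> simp at hm
  | wl w =>
    simp only [Slp.R2] at hm
    split_ifs at hm
  | _ => simp [Slp.R2] at hm

/-- module C5: no common faces -/
theorem C5 (S : Slp) (h : S.WF) : ∀ f ∈ S.faces1, ∀ g ∈ S.faces2, f.verts ≠ g.verts := by
  intro f hf g hg he
  have hsub : ∀ v, v ∈ f.verts ↔ v ∈ g.verts := fun v => by rw [he]
  unfold Slp.faces1 at hf
  unfold Slp.faces2 at hg
  simp only [List.mem_append, List.mem_map, List.mem_filter, decide_eq_true_eq] at hf hg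
  rcases hf with ⟨m, hm, rfl⟩ | ⟨⟨a, b⟩, hab, rfl⟩
  · have hm1 := mem_path1 hm
    rcases hg with (⟨m', ⟨hm', -⟩, rfl⟩ | hg) | ⟨⟨a, b⟩, hab, rfl⟩
    · -- two fan faces
      obtain ⟨v1, v2, v3, v4⟩ := mem_path2 hm'
      have hn := nf h v1 v2 v3 v4
      have e1 := (hsub (S.L1 m)).1 (by simp [Face.verts])
      have e2 := (hsub (S.R1 m)).1 (by simp [Face.verts])
      have e3 := (hsub m).1 (by simp [Face.verts])
      simp only [Face.verts, Finset.mem_insert, Finset.mem_singleton] at e1 e2 e3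
      have hb : Bad S (S.L2 m') m' (S.R2 m') m := by
        rcases e3 with e3 | e3 | e3
        · rw [e3]; exact hn.1
        · rw [e3]; exact hn.2.1
        · rw [e3]; exact hn.2.2
      rcases hb with hb | hb | hb | hb | hb
      · exact hm1.1 hb
      · exact hm1.2.1 hb
      · exact hm1.2.2 hb
      · exact hb e1
      · exact hb e2
    · -- the five faces
      have e1 := (hsub (S.L1 m)).1 (by simp [Face.verts])
      have e2 := (hsub (S.R1 m)).1 (by simp [Face.verts])
      have e3 := (hsub m).1 (by simp [Face.verts])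
      simp only [Slp.five, List.mem_cons, List.not_mem_nil, or_false] at hg
      rcases hg with rfl | rfl | rfl | rfl | rfl <;>
        simp only [Face.verts, Finset.mem_insert, Finset.mem_singleton] at e1 e2 e3 <;>
        rcases e3 with rfl | rfl | rfl <;> simp [Slp.L1, Slp.R1] at e1 e2
    · -- a fan face and a cone face
      obtain ⟨-, -, n3, n4, n5, n6⟩ := pairs2 hab
      have eV := (hsub V).2 (by simp [Face.verts])
      have e2 := (hsub (S.R1 m)).1 (by simp [Face.verts])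
      have e3 := (hsub m).1 (by simp [Face.verts])
      simp only [Face.verts, Finset.mem_insert, Finset.mem_singleton] at eV e2 e3
      have hV : S.L1 m = V := by
        rcases eV with eV | eV | eV
        · exact eV.symm
        · exact absurd eV.symm (R1_ne_V hm1.2.1)
        · exact absurd eV.symm hm1.2.2
      rcases L1_eq_V hV hm1.1 with rfl | ⟨j, rfl⟩ | ⟨j, rfl⟩
      · simp only [Slp.R1, reduceCtorEq, false_or] at e2 e3
        rcases e3 with rfl | rfl
        · rcases e2 with e2 | rfl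
          · simp at e2
          · exact n3 rfl
        · have := n4 rfl
          subst this
          simp at e2
      · simp only [Slp.R1, reduceCtorEq, false_or] at e2 e3
        rcases e3 with rfl | rfl
        · rcases e2 with e2 | rfl
          · simp at e2
          · have := n6 j rfl
            simp at this
        · rcases n5 j rfl with rfl | rfl <;> simp at e2
      · simp only [Slp.R1, reduceCtorEq, false_or] at e2 e3
        rcases e3 with rfl | rfl
        · split_ifs at e2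
          · simp only [reduceCtorEq, false_or] at e2
            subst e2
            have := n4 rfl
            simp at this
          · simp only [reduceCtorEq, false_or] at e2
            subst e2
            rcases n5 _ rfl with e | e <;> simp at e
        · have := n6 j rfl
          subst this
          split_ifs at e2 <;> simp at e2
  · obtain ⟨p1', p2', p3', p4'⟩ := pairs1 h hab
    have eH := (hsub H).1 (by simp [Face.verts])
    rcases hg with (⟨m', ⟨hm', -⟩, rfl⟩ | hg) | ⟨⟨a', b'⟩, hab', rfl⟩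
    · -- cone face and fan face
      obtain ⟨v1, v2, v3, v4⟩ := mem_path2 hm'
      simp only [Face.verts, Finset.mem_insert, Finset.mem_singleton] at eH
      have hH : S.L2 m' = H := by
        rcases eH with eH | eH | eH
        · exact eH.symm
        · exact absurd eH.symm v3
        · exact absurd eH.symm (R2_ne_H v4)
      have := L2_eq_H hH v2
      subst this
      have e1 := (hsub anc).2 (by simp [Face.verts])
      have e2 := (hsub O).2 (by simp [Face.verts, Slp.R2])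
      simp only [Face.verts, Finset.mem_insert, Finset.mem_singleton, reduceCtorEq,
        false_or] at e1 e2
      rcases e2 with e2 | e2
      · exact p1' e2.symm
      · have := p4' e2.symm
        subst this
        subst e2
        simp at e1
    · simp only [Slp.five, List.mem_cons, List.not_mem_nil, or_false] at hg
      rcases hg with rfl | rfl | rfl | rfl | rfl <;> simp [Face.verts] at eH
    · -- two cone faces
      obtain ⟨n1, n2, -⟩ := pairs2 hab'
      simp only [Face.verts, Finset.mem_insert, Finset.mem_singleton, reduceCtorEq,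
        false_or] at eH
      rcases eH with eH | eH
      · exact n1 eH.symm
      · have := n2 eH.symm
        subst this
        subst eH
        have e1 := (hsub V).2 (by simp [Face.verts])
        simp only [Face.verts, Finset.mem_insert, Finset.mem_singleton, reduceCtorEq,
          false_or] at e1
        rcases e1 with e1 | e1
        · have := p3' e1.symm
          subst this
          have e2 := (hsub (p1 S.N)).1 (by simp [Face.verts])
          simp [Face.verts] at e2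
        · exact p2' e1.symm

end Pool.Agent.helper73.SGE
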