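import Pool.Agent.helper56.SGE.Arith
import Pool.Agent.H54.PT.Ops

/-!
# Module M9a: the ladder programs of quadratic systems are computed in polynomial time
-/

set_option autoImplicit false

namespace Pool.Agent.helper73.SGE

open Pool.Agent.helper56.SGE Pool.Agent.H54.PT

/-! ### General closure properties -/

theorem cq_iteEq {τ : Type} {P : Pr} [∀ x v, Decidable (P x v)]
    {A B : List Bool → (ℕ → ℕ) → τ} {o : τ} (hP : Cq P) (hA : Cq (fun x v => A x v = o))
    (hB : Cq (fun x v => B x v = o)) : Cq (fun x v => (if P x v then A x v else B x v) = o) :=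
  ((hP.and hA).or (hP.not.and hB)).congr fun x v => by by_cases h : P x v <;> simp [h]

/-- definition by cases on a number, with a default value -/
theorem cp_cases (C : ℕ) {g : List Bool → (ℕ → ℕ) → ℕ → ℕ} {d e : Fn} (he : Cp e)
    (h : ∀ c < C, Cp (fun x v => g x v c)) (hd : Cp d) (hg : ∀ x v c, C ≤ c → g x v c = d x v) :
    Cp (fun x v => g x v (e x v)) := by
  have key : ∀ D ≤ C, Cp (fun x v => if e x v < D then g x v (e x v) else d x v) := by
    intro D
    induction D with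
    | zero => exact fun _ => hd.congr fun x v => by simp
    | succ D ih =>
      intro hD
      refine (Cp.ite (Cq.eq he (Cp.const D)) (h D hD) (ih (by omega))).congr fun x v => ?_
      by_cases h1 : e x v = D
      · simp [h1]
      · have : e x v < D + 1 ↔ e x v < D := by omega
        simp only [h1, if_false, this]
  refine (key C le_rfl).congr fun x v => ?_
  split_ifs with h1
  · rfl
  · exact (hg x v _ (by omega)).symm

/-- data `(type, A, kA, B, kB)` of a block, computable in polynomial time -/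
structure CD (D : List Bool → (ℕ → ℕ) → Ty × ℕ × Bool × ℕ × Bool) : Prop where
  ty : ∀ t, Cq (fun x v => (D x v).1 = t)
  A : Cp (fun x v => (D x v).2.1)
  kA : Cq (fun x v => (D x v).2.2.1 = true)
  B : Cp (fun x v => (D x v).2.2.2.1)
  kB : Cq (fun x v => (D x v).2.2.2.2 = true)

theorem CD.mk' (t : Ty) {a b : Fn} {p q : List Bool → (ℕ → ℕ) → Bool} (ha : Cp a)
    (hp : Cq (fun x v => p x v = true)) (hb : Cp b) (hq : Cq (fun x v => q x v = true)) :
    CD (fun x v => (t, a x v, p x v, b x v, q x v)) :=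
  ⟨fun t' => Cq.const (t = t'), ha, hp, hb, hq⟩

theorem CD.ite {P : Pr} [∀ x v, Decidable (P x v)]
    {D D' : List Bool → (ℕ → ℕ) → Ty × ℕ × Bool × ℕ × Bool} (hP : Cq P) (h : CD D) (h' : CD D') :
    CD (fun x v => if P x v then D x v else D' x v) := by
  refine ⟨fun t => ?_, ?_, ?_, ?_, ?_⟩
  · exact (cq_iteEq hP (h.ty t) (h'.ty t)).congr fun x v => by split_ifs <;> rfl
  · exact (Cp.ite hP h.A h'.A).congr fun x v => by split_ifs <;> rfl
  · exact (cq_iteEq hP h.kA h'.kA).congr fun x v => by split_ifs <;> rfl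
  · exact (Cp.ite hP h.B h'.B).congr fun x v => by split_ifs <;> rfl
  · exact (cq_iteEq hP h.kB h'.kB).congr fun x v => by split_ifs <;> rfl

theorem CD.congr {D D' : List Bool → (ℕ → ℕ) → Ty × ℕ × Bool × ℕ × Bool} (h : CD D)
    (e : ∀ x v, D x v = D' x v) : CD D' := by
  have : D = D' := by funext x v; exact e x v
  exact this ▸ h

/-! ### Programs -/

section pap

variable {P : List Bool → Pap}

/-- the data of a program are computed in polynomial time -/
structure CPap (P : List Bool → Pap) : Prop where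
  K : Cp (fun x _ => (P x).K)
  op : ∀ o, Cq (fun x v => (P x).op (v 0) = o)
  a : Cp (fun x v => (P x).a (v 0))
  b : Cp (fun x v => (P x).b (v 0))
  l : Cp (fun x _ => (P x).l)
  r : Cp (fun x _ => (P x).r)

theorem CPap.op' (h : CPap P) (o : Op) {e : Fn} (he : Cp e) :
    Cq (fun x v => (P x).op (e x v) = o) :=
  Cq.comp1 (g := fun x k => (P x).op k = o) (h.op o) he

theorem CPap.a' (h : CPap P) {e : Fn} (he : Cp e) : Cp (fun x v => (P x).a (e x v)) :=
  Cp.comp1 (g := fun x k => (P x).a k) h.a he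

theorem CPap.b' (h : CPap P) {e : Fn} (he : Cp e) : Cp (fun x v => (P x).b (e x v)) :=
  Cp.comp1 (g := fun x k => (P x).b k) h.b he

theorem CPap.wpB (h : CPap P) {e : Fn} (he : Cp e) : Cp (fun x v => (P x).wpB (e x v)) := by
  refine (Cp.ite (h.op' .one he) (Cp.const 0) (Cp.ite (h.op' .add he)
    (((Cp.const 6).mul he).add (Cp.const 5)) (((Cp.const 6).mul he).add (Cp.const 2)))).congr
    fun x v => ?_
  unfold Pap.wpB
  cases (P x).op (e x v) <;> simp

theorem CPap.wpK (h : CPap P) {e : Fn} (he : Cp e) :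
    Cq (fun x v => (P x).wpK (e x v) = true) := by
  refine ((h.op' .var he).or (h.op' .add he)).congr fun x v => ?_
  unfold Pap.wpK
  cases (P x).op (e x v) <;> simp

theorem CPap.wbB (h : CPap P) {e : Fn} (he : Cp e) : Cp (fun x v => (P x).wbB (e x v)) := by
  refine (Cp.ite (h.op' .one he) (Cp.const 0) (Cp.ite (h.op' .var he)
    (((Cp.const 6).mul he).add (Cp.const 1)) (Cp.ite (h.op' .add he)
    (((Cp.const 6).mul he).add (Cp.const 6)) (((Cp.const 6).mul he).add (Cp.const 4))))).congr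
    fun x v => ?_
  unfold Pap.wbB
  cases (P x).op (e x v) <;> simp

theorem cd_zero : CD (fun _ _ => (Ty.g, 0, false, 0, false)) :=
  CD.mk' _ (Cp.const 0) (Cq.const _) (Cp.const 0) (Cq.const _)

theorem CPap.blkD (h : CPap P) {e c : Fn} (he : Cp e) (hc : Cp c) :
    CD (fun x v => (P x).blkD (e x v) (c x v)) := by
  have e6 : ∀ n : ℕ, Cp (fun x v => 6 * e x v + n) := fun n =>
    ((Cp.const 6).mul he).add (Cp.const n)
  have hT : Cq (fun _ _ => (true : Bool) = true) := Cq.const _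
  have hF : Cq (fun _ _ => (false : Bool) = true) := Cq.const _
  have h0 : Cp (fun _ _ => 0) := Cp.const 0
  have ea := h.a' he
  have eb := h.b' he
  have hci : ∀ n : ℕ, Cq (fun x v => c x v = n) := fun n => Cq.eq hc (Cp.const n)
  have hvar : CD (fun x v => if c x v = 0 then (Ty.s, 0, false, 0, false)
      else if c x v = 1 then (.f, 0, false, 6 * e x v + 1, true)
      else (.g, 0, false, 0, false)) :=
    CD.ite (hci 0) (CD.mk' _ h0 hF h0 hF) (CD.ite (hci 1) (CD.mk' _ h0 hF (e6 1) hT) cd_zero)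
  have hmul : CD (fun x v =>
      if c x v = 0 then (Ty.f, (P x).wpB ((P x).a (e x v)), (P x).wpK ((P x).a (e x v)),
        (P x).wpB ((P x).b (e x v)), (P x).wpK ((P x).b (e x v)))
      else if c x v = 1 then (.g, 6 * e x v + 1, true, (P x).wpB ((P x).b (e x v)),
        (P x).wpK ((P x).b (e x v)))
      else if c x v = 2 then (.f, (P x).wbB ((P x).a (e x v)), false,
        (P x).wbB ((P x).b (e x v)), false)
      else if c x v = 3 then (.g, 6 * e x v + 3, true, (P x).wbB ((P x).b (e x v)), false)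
      else (.g, 0, false, 0, false)) :=
    CD.ite (hci 0) (CD.mk' _ (h.wpB ea) (h.wpK ea) (h.wpB eb) (h.wpK eb))
      (CD.ite (hci 1) (CD.mk' _ (e6 1) hT (h.wpB eb) (h.wpK eb))
      (CD.ite (hci 2) (CD.mk' _ (h.wbB ea) hF (h.wbB eb) hF)
      (CD.ite (hci 3) (CD.mk' _ (e6 3) hT (h.wbB eb) hF) cd_zero)))
  have hadd : CD (fun x v =>
      if c x v = 0 then (Ty.f, (P x).wpB ((P x).b (e x v)), (P x).wpK ((P x).b (e x v)),
        (P x).wbB ((P x).a (e x v)), false)
      else if c x v = 1 then (.g, 6 * e x v + 1, true, (P x).wbB ((P x).a (e x v)), false)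
      else if c x v = 2 then (.f, (P x).wbB ((P x).b (e x v)), false,
        (P x).wpB ((P x).a (e x v)), (P x).wpK ((P x).a (e x v)))
      else if c x v = 3 then (.g, 6 * e x v + 3, true, (P x).wpB ((P x).a (e x v)),
        (P x).wpK ((P x).a (e x v)))
      else if c x v = 4 then (.f, (P x).wpB ((P x).a (e x v)), (P x).wpK ((P x).a (e x v)),
        6 * e x v + 2, false)
      else (.g, (P x).wbB ((P x).a (e x v)), false, 6 * e x v + 4, false)) :=
    CD.ite (hci 0) (CD.mk' _ (h.wpB eb) (h.wpK eb) (h.wbB ea) hF)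
      (CD.ite (hci 1) (CD.mk' _ (e6 1) hT (h.wbB ea) hF)
      (CD.ite (hci 2) (CD.mk' _ (h.wbB eb) hF (h.wpB ea) (h.wpK ea))
      (CD.ite (hci 3) (CD.mk' _ (e6 3) hT (h.wpB ea) (h.wpK ea))
      (CD.ite (hci 4) (CD.mk' _ (h.wpB ea) (h.wpK ea) (e6 2) hF)
      (CD.mk' _ (h.wbB ea) hF (e6 4) hF)))))
  refine (CD.ite (h.op' .one he) cd_zero (CD.ite (h.op' .var he) hvar
    (CD.ite (h.op' .mul he) hmul hadd))).congr fun x v => ?_
  unfold Pap.blkD
  cases (P x).op (e x v) <;> simp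

theorem CPap.dat (h : CPap P) : CD (fun x v => (P x).dat (v 0)) := by
  have K6 : ∀ n : ℕ, Cp (fun x v => 6 * (P x).K + n) := fun n =>
    ((Cp.const 6).mul h.K).add (Cp.const n)
  have hT : Cq (fun _ _ => (true : Bool) = true) := Cq.const _
  have hF : Cq (fun _ _ => (false : Bool) = true) := Cq.const _
  have hj := Cp.var 0
  exact CD.ite (Cq.eq hj (K6 1)) (CD.mk' _ (h.wpB h.l) (h.wpK h.l) (h.wbB h.r) hF)
    (CD.ite (Cq.eq hj (K6 2)) (CD.mk' _ (K6 1) hT (h.wbB h.r) hF)
    (h.blkD ((hj.sub (Cp.const 1)).div (Cp.const 6)) ((hj.sub (Cp.const 1)).mod (Cp.const 6))))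

end pap

/-! ### Quadratic systems -/

section qsys

variable {F : List Bool → QSys}

theorem cp_posRef {e : Fn} (he : Cp e) : Cp (fun x v => posRef (e x v)) :=
  Cp.ite (Cq.eq he (Cp.const 0)) (Cp.const 0) (Cp.ite (Cq.eq he (Cp.const 1)) (Cp.const 1)
    (((Cp.const 2).mul he).sub (Cp.const 2)))

theorem cp_negRef {e : Fn} (he : Cp e) : Cp (fun x v => negRef (e x v)) :=
  Cp.ite (Cq.eq he (Cp.const 0)) (Cp.const 0) (Cp.ite (Cq.eq he (Cp.const 1)) (Cp.const 0)
    (((Cp.const 2).mul he).sub (Cp.const 1)))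

variable (h1 : Cp (fun x _ => (F x).nv)) (h2 : Cp (fun x _ => (F x).m))
  (h3 : Cp (fun x v => (F x).ref (v 0) (v 1)))

include h1 h2 in
theorem cp_tau : Cp (fun x _ => (F x).tau) :=
  (Cp.const 20).mul ((h1.add h2).add (Cp.const 2))

include h1 h2 in
theorem cp_kap : Cp (fun x _ => (F x).kap) :=
  (Cp.const 60).mul ((h1.add h2).add (Cp.const 2))

include h1 in
theorem cp_b1 : Cp (fun x _ => (F x).b1) := (Cp.const 2).add ((Cp.const 2).mul h1)

include h1 h2 in
theorem cp_b2 : Cp (fun x _ => (F x).b2) := (cp_b1 h1).add ((Cp.const 17).mul h2)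

include h1 h2 in
theorem cp_b3 : Cp (fun x _ => (F x).b3) := (cp_b2 h1 h2).add ((Cp.const 2).mul h1)

include h1 h2 in
theorem cp_b4 : Cp (fun x _ => (F x).b4) := (cp_b3 h1 h2).add (cp_tau h1 h2)

include h1 h2 in
theorem cp_b5 : Cp (fun x _ => (F x).b5) := (cp_b4 h1 h2).add (cp_kap h1 h2)

include h1 in
theorem cp_accA {e : Fn} (he : Cp e) : Cp (fun x v => (F x).accA (e x v)) :=
  Cp.ite (Cq.eq he (Cp.const 0)) (Cp.const 0)
    (((cp_b1 h1).add ((Cp.const 17).mul he)).sub (Cp.const 3))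

include h1 in
theorem cp_accB {e : Fn} (he : Cp e) : Cp (fun x v => (F x).accB (e x v)) :=
  Cp.ite (Cq.eq he (Cp.const 0)) (Cp.const 0)
    (((cp_b1 h1).add ((Cp.const 17).mul he)).sub (Cp.const 1))

include h3 in
theorem cp_ref (c : ℕ) {e : Fn} (he : Cp e) : Cp (fun x v => (F x).ref (e x v) c) :=
  Cp.comp2 (g := fun x i j => (F x).ref i j) h3 he (Cp.const c)

include h1 h3 in
theorem cp_eqA {e c : Fn} (he : Cp e) (hc : Cp c) :
    Cp (fun x v => (F x).eqA (e x v) (c x v)) := by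
  have hb : ∀ n : ℕ, Cp (fun x v => (F x).b1 + 17 * e x v + n) := fun n =>
    ((cp_b1 h1).add ((Cp.const 17).mul he)).add (Cp.const n)
  refine cp_cases 17 (g := fun x v n => (F x).eqA (e x v) n) hc (fun n hn => ?_) (hb 15) ?_
  · interval_cases n
    · exact cp_posRef (cp_ref h3 0 he)
    · exact cp_negRef (cp_ref h3 0 he)
    · exact hb 0
    · exact hb 2
    · exact hb 3
    · exact cp_posRef (cp_ref h3 0 he)
    · exact cp_negRef (cp_ref h3 0 he)
    · exact hb 5
    · exact hb 7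
    · exact hb 8
    · exact hb 4
    · exact hb 9
    · exact hb 4
    · exact hb 10
    · exact cp_accA h1 he
    · exact cp_accB h1 he
    · exact hb 15
  · intro x v n hn
    obtain ⟨m, rfl⟩ := Nat.exists_eq_add_of_le' hn
    rfl

include h1 h3 in
theorem cp_eqB {e c : Fn} (he : Cp e) (hc : Cp c) :
    Cp (fun x v => (F x).eqB (e x v) (c x v)) := by
  have hb : ∀ n : ℕ, Cp (fun x v => (F x).b1 + 17 * e x v + n) := fun n =>
    ((cp_b1 h1).add ((Cp.const 17).mul he)).add (Cp.const n)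
  refine cp_cases 17 (g := fun x v n => (F x).eqB (e x v) n) hc (fun n hn => ?_) (hb 12) ?_
  · interval_cases n
    · exact cp_posRef (cp_ref h3 1 he)
    · exact cp_negRef (cp_ref h3 1 he)
    · exact hb 1
    · exact cp_posRef (cp_ref h3 2 he)
    · exact cp_negRef (cp_ref h3 3 he)
    · exact cp_negRef (cp_ref h3 1 he)
    · exact cp_posRef (cp_ref h3 1 he)
    · exact hb 6
    · exact cp_negRef (cp_ref h3 2 he)
    · exact cp_posRef (cp_ref h3 3 he)
    · exact hb 4
    · exact hb 9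
    · exact hb 9
    · exact hb 11
    · exact hb 13
    · exact hb 12
    · exact hb 12
  · intro x v n hn
    obtain ⟨m, rfl⟩ := Nat.exists_eq_add_of_le' hn
    rfl

include h1 h2 h3 in
theorem cPap_toPap : CPap (fun x => (F x).toPap) := by
  have hn := Cp.var 0
  have b1 := cp_b1 h1
  have b2 := cp_b2 h1 h2
  have b3 := cp_b3 h1 h2
  have b4 := cp_b4 h1 h2
  have b5 := cp_b5 h1 h2
  have hq : Cp (fun x v => (v 0 - (F x).b1) / 17) := (hn.sub b1).div (Cp.const 17)
  have hr : Cp (fun x v => (v 0 - (F x).b1) % 17) := (hn.sub b1).mod (Cp.const 17)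
  have hn1 : Cp (fun x v => v 0 - 1) := hn.sub (Cp.const 1)
  have b5' : ∀ n : ℕ, Cp (fun x v => (F x).b5 + n) := fun n => b5.add (Cp.const n)
  have b51 : Cp (fun x v => (F x).b5 - 1) := b5.sub (Cp.const 1)
  refine ⟨b5' 4, fun o => ?_, ?_, ?_, b5' 1, b5' 3⟩
  · have hop : Cq (fun x v => QSys.eqOp ((v 0 - (F x).b1) % 17) = true) := by
      refine (Cq.table 17 (fun c => QSys.eqOp c = true) hr).congr fun x v => ?_
      have := Nat.mod_lt (v 0 - (F x).b1) (show 0 < 17 by norm_num)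
      constructor
      · exact fun h => h.2
      · exact fun h => ⟨this, h⟩
    exact cq_iteEq (Cq.eq hn (Cp.const 0)) (Cq.const _) <|
      cq_iteEq (Cq.eq hn (Cp.const 1)) (Cq.const _) <|
      cq_iteEq (Cq.lt hn b1) (Cq.const _) <|
      cq_iteEq (Cq.lt hn b2) (cq_iteEq hop (Cq.const _) (Cq.const _)) <|
      cq_iteEq (Cq.lt hn b3) (Cq.const _) <|
      cq_iteEq (Cq.lt hn b5) (Cq.const _) <|
      cq_iteEq (Cq.eq hn b5) (Cq.const _) <|
      cq_iteEq (Cq.eq hn (b5' 1)) (Cq.const _) <|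
      cq_iteEq (Cq.eq hn (b5' 2)) (Cq.const _) (Cq.const _)
  · exact Cp.ite (Cq.lt hn b1) (Cp.const 0) <|
      Cp.ite (Cq.lt hn b2) (cp_eqA h1 h3 hq hr) <|
      Cp.ite (Cq.lt hn b3) (Cp.ite (Cq.eq hn b2) (Cp.const 0) hn1) <|
      Cp.ite (Cq.lt hn b4) (Cp.ite (Cq.eq hn b3) (Cp.const 1) hn1) <|
      Cp.ite (Cq.lt hn b5) (Cp.ite (Cq.eq hn b4) (Cp.const 1) hn1) <|
      Cp.ite (Cq.eq hn b5) b51 <|
      Cp.ite (Cq.eq hn (b5' 1)) b5 <|
      Cp.ite (Cq.eq hn (b5' 2)) b51 (b5' 2)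
  · exact Cp.ite (Cq.lt hn b1) (Cp.const 0) <|
      Cp.ite (Cq.lt hn b2) (cp_eqB h1 h3 hq hr) <|
      Cp.ite (Cq.lt hn b3) ((Cp.const 2).add (hn.sub b2)) <|
      Cp.ite (Cq.lt hn b4) (Cp.ite (Cq.eq hn b3) (Cp.const 1) hn1) <|
      Cp.ite (Cq.lt hn b5) (Cp.ite (Cq.eq hn b4) (Cp.const 1) hn1) <|
      Cp.ite (Cq.eq hn b5) (cp_accA h1 h2) <|
      Cp.ite (Cq.eq hn (b5' 1)) (Cp.ite (Cq.eq h1 (Cp.const 0)) (Cp.const 0)
        (b3.sub (Cp.const 1))) <|
      Cp.ite (Cq.eq hn (b5' 2)) (cp_accB h1 h2) (b4.sub (Cp.const 1))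

end qsys

/-- module M9a: ladder programs of quadratic systems in polynomial time -/
theorem M9a (F : List Bool → QSys) (h1 : Cp (fun x _ => (F x).nv)) (h2 : Cp (fun x _ => (F x).m))
    (h3 : Cp (fun x v => (F x).ref (v 0) (v 1))) :
    Cp (fun x _ => (F x).toPap.toSlp.N) ∧
    (∀ t, Cq (fun x v => (F x).toPap.toSlp.ty (v 0) = t)) ∧
    Cp (fun x v => (F x).toPap.toSlp.A (v 0)) ∧ Cp (fun x v => (F x).toPap.toSlp.B (v 0)) ∧
    Cq (fun x v => (F x).toPap.toSlp.kA (v 0) = true) ∧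
    Cq (fun x v => (F x).toPap.toSlp.kB (v 0) = true) := by
  have h := cPap_toPap h1 h2 h3
  have hd := h.dat
  exact ⟨((Cp.const 6).mul h.K).add (Cp.const 2), hd.ty, hd.A, hd.B, hd.kA, hd.kB⟩

end Pool.Agent.helper73.SGE
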