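import Pool.Agent.helper56.SGE.Vx
import Pool.Agent.H54.PT.Enc
import Pool.Agent.helper73.SGE.M9a

/-!
# Module M9b: the instance of a ladder program is computed in polynomial time
-/

set_option autoImplicit false

namespace Pool.Agent.helper73.SGE

open Pool.Agent.helper56.SGE Pool.Agent.H54.PT Vx

/-! ### The last element of a filtered range -/

/-- one plus the last `u < w` with `P u`, or `0` -/
noncomputable def lastr (P : ℕ → Prop) : ℕ → ℕ
  | 0 => 0
  | w + 1 => by classical exact if P w then w + 1 else lastr P w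

theorem lastr_succ_pos {P : ℕ → Prop} {w : ℕ} (h : P w) : lastr P (w + 1) = w + 1 := by
  simp [lastr, h]

theorem lastr_succ_neg {P : ℕ → Prop} {w : ℕ} (h : ¬ P w) : lastr P (w + 1) = lastr P w := by
  simp [lastr, h]

theorem getLast_filter (P : ℕ → Prop) [DecidablePred P] (w : ℕ) :
    ((List.range w).filter (fun u => decide (P u))).getLast? =
      if lastr P w = 0 then none else some (lastr P w - 1) := by
  induction w with
  | zero => simp [lastr]
  | succ w ih =>
    rw [List.range_succ, List.filter_append]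
    by_cases h : P w
    · rw [lastr_succ_pos h]
      simp [h]
    · rw [lastr_succ_neg h, ← ih]
      simp [h]

open Classical in
theorem lastr_eq (P : ℕ → Prop) (w : ℕ) :
    lastr P w = ((Finset.range w).filter (fun u => ∃ i < w, u ≤ i ∧ P i)).card := by
  induction w with
  | zero => simp [lastr]
  | succ w ih =>
    by_cases h : P w
    · rw [lastr_succ_pos h]
      have : (Finset.range (w + 1)).filter (fun u => ∃ i < w + 1, u ≤ i ∧ P i) =
          Finset.range (w + 1) := by
        refine Finset.filter_true_of_mem fun u hu => ⟨w, by omega, ?_, h⟩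
        have := Finset.mem_range.1 hu
        omega
      rw [this, Finset.card_range]
    · rw [lastr_succ_neg h, ih]
      congr 1
      ext u
      simp only [Finset.mem_filter, Finset.mem_range]
      constructor
      · rintro ⟨h1, i, h2, h3, h4⟩
        exact ⟨by omega, i, by omega, h3, h4⟩
      · rintro ⟨h1, i, h2, h3, h4⟩
        have : i ≠ w := fun e => h (e ▸ h4)
        exact ⟨by omega, i, by omega, h3, h4⟩

theorem cp_lastr {b : Fn} {P : List Bool → (ℕ → ℕ) → ℕ → Prop} (hb : Cp b)
    (hP : Cq (fun x v => P x (fun i => v (i + 1)) (v 0))) :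
    Cp (fun x v => lastr (P x v) (b x v)) := by
  classical
  refine (Cp.count (P := fun x v u => ∃ i < b x v, u ≤ i ∧ P x v i) hb ?_).congr fun x v => ?_
  · refine Cq.ex' (P := fun x v i => v 0 ≤ i ∧ P x (fun i => v (i + 1)) i)
      (hb.rename (· + 1)) ?_
    exact (Cq.le (Cp.var 1) (Cp.var 0)).and
      (hP.rename (fun i => match i with | 0 => 0 | i + 1 => i + 2))
  · rw [lastr_eq]

/-! ### Vertices -/

/-- the number of a vertex is computed in polynomial time -/
def CV (W : List Bool → (ℕ → ℕ) → Vx) : Prop := Cp (fun x v => Slp.code (W x v))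

theorem CV.congr {W W' : List Bool → (ℕ → ℕ) → Vx} (h : CV W) (e : ∀ x v, W x v = W' x v) :
    CV W' := by
  have : W = W' := by funext x v; exact e x v
  exact this ▸ h

theorem CV.const (u : Vx) : CV (fun _ _ => u) := Cp.const _

theorem CV.ite {P : Pr} [∀ x v, Decidable (P x v)] {W W' : List Bool → (ℕ → ℕ) → Vx}
    (hP : Cq P) (h : CV W) (h' : CV W') : CV (fun x v => if P x v then W x v else W' x v) :=
  (Cp.ite hP h h').congr fun x v => by by_cases hp : P x v <;> simp [hp]

section constructors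

variable {e : Fn} (he : Cp e)

include he in
theorem cp_blk (c : ℕ) : Cp (fun x v => 16 + 14 * (e x v - 1) + c) :=
  ((Cp.const 16).add ((Cp.const 14).mul (he.sub (Cp.const 1)))).add (Cp.const c)

include he in
theorem cv_p1 : CV (fun x v => p1 (e x v)) := cp_blk he 0
include he in
theorem cv_q2 : CV (fun x v => q2 (e x v)) := cp_blk he 1
include he in
theorem cv_X : CV (fun x v => X (e x v)) := cp_blk he 2
include he in
theorem cv_q3 : CV (fun x v => q3 (e x v)) := cp_blk he 3
include he in
theorem cv_r4 : CV (fun x v => r4 (e x v)) := cp_blk he 4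
include he in
theorem cv_Y : CV (fun x v => Y (e x v)) := cp_blk he 5
include he in
theorem cv_a5 : CV (fun x v => a5 (e x v)) := cp_blk he 6
include he in
theorem cv_a3 : CV (fun x v => a3 (e x v)) := cp_blk he 7

include he in
theorem cp_wire (c : ℕ) : Cp (fun x v => 16 + 14 * (e x v / 2 - 1) + c + 3 * (e x v % 2)) :=
  (cp_blk (he.div (Cp.const 2)) c).add ((Cp.const 3).mul (he.mod (Cp.const 2)))

include he in
theorem cv_wr : CV (fun x v => wr (e x v)) := cp_wire he 8
include he in
theorem cv_wm : CV (fun x v => wm (e x v)) := cp_wire he 9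
include he in
theorem cv_wl : CV (fun x v => wl (e x v)) := cp_wire he 10

end constructors

/-- the data of a ladder program are computed in polynomial time -/
structure CSlp (S : List Bool → Slp) : Prop where
  N : Cp (fun x _ => (S x).N)
  ty : ∀ t, Cq (fun x v => (S x).ty (v 0) = t)
  A : Cp (fun x v => (S x).A (v 0))
  B : Cp (fun x v => (S x).B (v 0))
  kA : Cq (fun x v => (S x).kA (v 0) = true)
  kB : Cq (fun x v => (S x).kB (v 0) = true)

variable {S : List Bool → Slp} (h : CSlp S) {e : Fn} (he : Cp e)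

include h he in
theorem cq_ty (t : Ty) : Cq (fun x v => (S x).ty (e x v) = t) :=
  Cq.comp1 (g := fun x k => (S x).ty k = t) (h.ty t) he

include h he in
theorem cp_src : Cp (fun x v => (S x).src (e x v)) :=
  Cp.ite (Cq.eq (he.mod (Cp.const 2)) (Cp.const 0))
    (Cp.comp1 (g := fun x k => (S x).A k) h.A (he.div (Cp.const 2)))
    (Cp.comp1 (g := fun x k => (S x).B k) h.B (he.div (Cp.const 2)))

include h he in
theorem cq_kind : Cq (fun x v => (S x).kind (e x v) = true) :=
  cq_iteEq (Cq.eq (he.mod (Cp.const 2)) (Cp.const 0))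
    (Cq.comp1 (g := fun x k => (S x).kA k = true) h.kA (he.div (Cp.const 2)))
    (Cq.comp1 (g := fun x k => (S x).kB k = true) h.kB (he.div (Cp.const 2)))

include h he in
theorem cq_kindf : Cq (fun x v => (S x).kind (e x v) = false) :=
  (cq_kind h he).not.congr fun x v => by simp

include h he in
theorem cv_pv {c : ℕ → Vx} (hc : ∀ e : Fn, Cp e → CV (fun x v => c (e x v)))
    {d : List Bool → (ℕ → ℕ) → Vx} (hd : CV d) :
    CV (fun x v => (S x).pv c (e x v) (d x v)) := by
  have h1 : Cp (fun x v => lastr (fun u => 2 ≤ u ∧ (S x).src u = (S x).src (e x v) ∧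
      (S x).kind u = (S x).kind (e x v)) (e x v)) := by
    refine cp_lastr (P := fun x v u => 2 ≤ u ∧ (S x).src u = (S x).src (e x v) ∧
      (S x).kind u = (S x).kind (e x v)) he ?_
    have he1 : Cp (fun x v => e x (fun i => v (i + 1))) := he.rename (· + 1)
    refine (Cq.le (Cp.const 2) (Cp.var 0)).and
      ((Cq.eq (cp_src h (Cp.var 0)) (cp_src h he1)).and ?_)
    exact (Cq.iff (cq_kind h (Cp.var 0)) (cq_kind h he1)).congr fun x v => by
      cases (S x).kind (v 0) <;> cases (S x).kind (e x fun i => v (i + 1)) <;> simp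
  refine (CV.ite (Cq.eq h1 (Cp.const 0)) hd (hc _ (h1.sub (Cp.const 1)))).congr fun x v => ?_
  unfold Slp.pv Slp.prev
  rw [getLast_filter (fun u => 2 ≤ u ∧ (S x).src u = (S x).src (e x v) ∧
      (S x).kind u = (S x).kind (e x v))]
  split_ifs <;> rfl

include h he in
theorem cv_lm {k : List Bool → (ℕ → ℕ) → Bool} (hk : Cq (fun x v => k x v = true))
    {d : List Bool → (ℕ → ℕ) → Vx} (hd : CV d) :
    CV (fun x v => (S x).lm (e x v) (k x v) (d x v)) := by
  have h1 : Cp (fun x v => lastr (fun u => 2 ≤ u ∧ (S x).src u = e x v ∧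
      (S x).kind u = k x v) (2 * (S x).N + 2)) := by
    refine cp_lastr (P := fun x v u => 2 ≤ u ∧ (S x).src u = e x v ∧
      (S x).kind u = k x v) (((Cp.const 2).mul h.N).add (Cp.const 2)) ?_
    have he1 : Cp (fun x v => e x (fun i => v (i + 1))) := he.rename (· + 1)
    have hk1 : Cq (fun x v => k x (fun i => v (i + 1)) = true) := hk.rename (· + 1)
    refine (Cq.le (Cp.const 2) (Cp.var 0)).and
      ((Cq.eq (cp_src h (Cp.var 0)) he1).and ?_)
    exact (Cq.iff (cq_kind h (Cp.var 0)) hk1).congr fun x v => by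
      cases (S x).kind (v 0) <;> cases k x fun i => v (i + 1) <;> simp
  refine (CV.ite (Cq.eq h1 (Cp.const 0)) hd (cv_wm (h1.sub (Cp.const 1)))).congr fun x v => ?_
  unfold Slp.lm Slp.last? Slp.readers
  rw [getLast_filter (fun u => 2 ≤ u ∧ (S x).src u = e x v ∧ (S x).kind u = k x v)]
  split_ifs <;> rfl

include h he in
theorem cv_pk : CV (fun x v => (S x).pk (e x v)) :=
  CV.ite (Cq.lt he h.N) (cv_wl ((Cp.const 2).mul (he.add (Cp.const 1)))) (CV.const _)

include h he in
theorem cv_pa : CV (fun x v => (S x).pa (e x v)) :=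
  CV.ite (Cq.lt he h.N) (cv_a3 (he.add (Cp.const 1))) (CV.const _)

/-- match on the type -/
theorem cv_ty {a b c : List Bool → (ℕ → ℕ) → Vx} (h : CSlp S) {e : Fn} (he : Cp e)
    (ha : CV a) (hb : CV b) (hc : CV c) :
    CV (fun x v => match (S x).ty (e x v) with
      | .g => a x v
      | .s => b x v
      | .f => c x v) := by
  refine (CV.ite (cq_ty h he .g) ha (CV.ite (cq_ty h he .s) hb hc)).congr fun x v => ?_
  cases (S x).ty (e x v) <;> simp

include h he in
theorem cv_c2 : CV (fun x v => (S x).c2 (e x v)) :=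
  cv_ty h he (cv_q3 he) (cv_q3 he) (cv_q2 he)

include h he in
theorem cv_c4 : CV (fun x v => (S x).c4 (e x v)) :=
  cv_ty h he (cv_q2 he) (cv_X he) (cv_q3 he)

/-! ### Neighbours -/

theorem cp_dec (Φ : List Bool → Vx → ℕ) (h0 : ∀ i < 16, Cp (fun x _ => Φ x (Slp.dec i)))
    (h1 : ∀ c < 14, ∀ e : Fn, Cp e → Cp (fun x v => Φ x (Slp.decB (e x v) c))) :
    Cp (fun x v => Φ x (Slp.dec (v 0))) := by
  have hA : Cp (fun x v => if v 0 < 16 then Φ x (Slp.dec (v 0)) else 0) := by
    refine cp_cases 16 (g := fun x _ n => if n < 16 then Φ x (Slp.dec n) else 0) (Cp.var 0)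
      (fun c hc => ?_) (Cp.const 0) ?_
    · exact (h0 c hc).congr fun x v => by rw [if_pos hc]
    · intro x v c hc
      exact if_neg (by omega)
  have hj : Cp (fun x v => (v 0 - 16) / 14 + 1) :=
    (((Cp.var 0).sub (Cp.const 16)).div (Cp.const 14)).add (Cp.const 1)
  have hB : Cp (fun x v => Φ x (Slp.decB ((v 0 - 16) / 14 + 1) ((v 0 - 16) % 14))) := by
    refine cp_cases 14 (g := fun x v n => Φ x (Slp.decB ((v 0 - 16) / 14 + 1) n))
      (((Cp.var 0).sub (Cp.const 16)).mod (Cp.const 14)) (fun c hc => h1 c hc _ hj)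
      (h1 13 (by norm_num) _ hj) ?_
    intro x v c hc
    obtain ⟨m, rfl⟩ := Nat.exists_eq_add_of_le' hc
    rfl
  refine (Cp.ite (Cq.lt (Cp.var 0) (Cp.const 16)) hA hB).congr fun x v => ?_
  by_cases hv : v 0 < 16
  · simp [hv]
  · obtain ⟨k, hk⟩ := Nat.exists_eq_add_of_le' (show 16 ≤ v 0 by omega)
    rw [if_neg hv, hk, Nat.add_sub_cancel]
    rfl

theorem cv_dec (f : List Bool → Vx → Vx) (h0 : ∀ i < 16, CV (fun x _ => f x (Slp.dec i)))
    (h1 : ∀ c < 14, ∀ e : Fn, Cp e → CV (fun x v => f x (Slp.decB (e x v) c))) :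
    CV (fun x v => f x (Slp.dec (v 0))) :=
  cp_dec (fun x u => Slp.code (f x u)) h0 h1

include h in
theorem cv_L1 : CV (fun x v => (S x).L1 (Slp.dec (v 0))) := by
  refine cv_dec (fun x u => (S x).L1 u) (fun i hi => ?_) (fun c hc e he => ?_)
  · interval_cases i
    · exact CV.const V
    · exact CV.const O
    · exact CV.const O
    · exact CV.const V
    · exact CV.const p0
    · exact CV.const q0
    · exact CV.const q0
    · exact CV.const s0
    · exact cv_p1 h.N
    · exact cv_p1 h.N
    · exact cv_q3 h.N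
    · exact cv_q3 h.N
    · exact cv_q3 h.N
    · exact cv_q3 h.N
    · exact CV.const J
    · exact CV.const r0
  · have hwr : ∀ w : Fn, Cp w → CV (fun x v => (S x).L1 (wr (w x v))) := fun w hw =>
      CV.ite (Cq.eq (cp_src h hw) (Cp.const 0)) (cv_r4 (Cp.const 1))
        (CV.ite (cq_kind h hw) (cv_r4 ((cp_src h hw).add (Cp.const 1))) (cv_p1 (cp_src h hw)))
    have hwm : ∀ w : Fn, Cp w → CV (fun x v => (S x).L1 (wm (w x v))) := fun w hw =>
      cv_pv h hw (fun e he => cv_wm he) (CV.ite (Cq.eq (cp_src h hw) (Cp.const 0)) (CV.const q0p)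
        (CV.ite (cq_kindf h hw) (cv_q3 (cp_src h hw))
        (CV.ite (cq_ty h (cp_src h hw) .f) (cv_X (cp_src h hw)) (cv_q2 (cp_src h hw)))))
    have hwl : ∀ w : Fn, Cp w → CV (fun x v => (S x).L1 (wl (w x v))) := fun w hw =>
      CV.ite (Cq.eq (cp_src h hw) (Cp.const 0)) (CV.const s0)
        (cv_lm h (cp_src h hw) (cq_kind h hw) (CV.const O))
    have e2 : Cp (fun x v => 2 * e x v) := (Cp.const 2).mul he
    have e21 : Cp (fun x v => 2 * e x v + 1) := e2.add (Cp.const 1)
    interval_cases c
    · exact CV.const V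
    · exact cv_p1 he
    · exact CV.ite (cq_ty h he .f) (cv_q2 he) (cv_p1 he)
    · exact CV.ite (cq_ty h he .f) (cv_X he) (cv_p1 he)
    · exact CV.const V
    · exact CV.ite (cq_ty h he .f) (cv_q2 he)
        (cv_lm (k := fun _ _ => false) h he (Cq.const _) (cv_q3 he))
    · exact CV.const r0
    · exact CV.const r0
    · exact hwr _ e2
    · exact hwm _ e2
    · exact hwl _ e2
    · exact hwr _ e21
    · exact hwm _ e21
    · exact hwl _ e21

include h in
theorem cv_R1 : CV (fun x v => (S x).R1 (Slp.dec (v 0))) := by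
  refine cv_dec (fun x u => (S x).R1 u) (fun i hi => ?_) (fun c hc e he => ?_)
  · interval_cases i
    · exact CV.const H
    · exact CV.const V
    · exact CV.const H
    · exact CV.const O
    · exact CV.const O
    · exact CV.const s0
    · exact CV.const O
    · exact CV.const O
    · exact cv_q2 h.N
    · exact CV.const A1
    · exact cv_Y h.N
    · exact CV.const B1
    · exact CV.const J
    · exact CV.const B2
    · exact CV.const B2
    · exact cv_a5 h.N
  · have hwr : ∀ w : Fn, Cp w → CV (fun x v => (S x).R1 (wr (w x v))) := fun w hw =>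
      cv_pv h hw (fun e he => cv_wr he) (CV.ite (Cq.eq (cp_src h hw) (Cp.const 0)) (CV.const p0)
        (CV.ite (cq_kind h hw) (cv_p1 (cp_src h hw)) (cv_q2 (cp_src h hw))))
    have hwm : ∀ w : Fn, Cp w → CV (fun x v => (S x).R1 (wm (w x v))) := fun w hw =>
      CV.ite (Cq.eq (cp_src h hw) (Cp.const 0)) (CV.const s0)
        (CV.ite (cq_kindf h hw) (cv_r4 (cp_src h hw))
        (CV.ite (cq_ty h (cp_src h hw) .f) (cv_q3 (cp_src h hw)) (cv_X (cp_src h hw))))
    have hwl : ∀ w : Fn, Cp w → CV (fun x v => (S x).R1 (wl (w x v))) := fun w hw =>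
      cv_pv h hw (fun e he => cv_wl he) (CV.ite (Cq.eq (cp_src h hw) (Cp.const 0)) (CV.const r0)
        (CV.ite (cq_kindf h hw) (cv_Y (cp_src h hw))
        (CV.ite (cq_ty h (cp_src h hw) .f) (cv_q3 (cp_src h hw)) (cv_X (cp_src h hw)))))
    have e2 : Cp (fun x v => 2 * e x v) := (Cp.const 2).mul he
    have e21 : Cp (fun x v => 2 * e x v + 1) := e2.add (Cp.const 1)
    have em : Cp (fun x v => e x v - 1) := he.sub (Cp.const 1)
    interval_cases c
    · exact cv_r4 he
    · exact CV.ite (cq_ty h he .f) (cv_r4 he) (cv_X he)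
    · exact CV.ite (cq_ty h he .f) (cv_Y he) (cv_q3 he)
    · exact CV.ite (cq_ty h he .f) (cv_Y he) (cv_r4 he)
    · exact CV.ite (Cq.eq he (Cp.const 1)) (CV.const p0) (cv_p1 em)
    · exact cv_r4 he
    · exact cv_a3 he
    · exact CV.ite (Cq.eq he (Cp.const 1)) (CV.const O) (cv_a5 em)
    · exact hwr _ e2
    · exact hwm _ e2
    · exact hwl _ e2
    · exact hwr _ e21
    · exact hwm _ e21
    · exact hwl _ e21

include h in
theorem cv_L2 : CV (fun x v => (S x).L2 (Slp.dec (v 0))) := by
  refine cv_dec (fun x u => (S x).L2 u) (fun i hi => ?_) (fun c hc e he => ?_)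
  · interval_cases i
    · exact CV.const H
    · exact CV.const O
    · exact CV.const O
    · exact CV.const (wl 2)
    · exact CV.const r0
    · exact CV.const (wl 2)
    · exact CV.const q0p
    · exact CV.const q0p
    · exact CV.const M
    · exact CV.const B2
    · exact CV.const anc
    · exact CV.const anc
    · exact CV.const A2
    · exact CV.const A1
    · exact CV.const A1
    · exact CV.const H
  · have hwr : ∀ w : Fn, Cp w → CV (fun x v => (S x).L2 (wr (w x v))) := fun w hw =>
      CV.ite (Cq.eq (hw.mod (Cp.const 2)) (Cp.const 0)) (cv_a3 (hw.div (Cp.const 2)))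
        (cv_a5 (hw.div (Cp.const 2)))
    have hwm : ∀ w : Fn, Cp w → CV (fun x v => (S x).L2 (wm (w x v))) := fun w hw => cv_wr hw
    have hwl : ∀ w : Fn, Cp w → CV (fun x v => (S x).L2 (wl (w x v))) := fun w hw =>
      CV.ite (Cq.eq (hw.mod (Cp.const 2)) (Cp.const 0)) (cv_a3 (hw.div (Cp.const 2)))
        (cv_a5 (hw.div (Cp.const 2)))
    have e2 : Cp (fun x v => 2 * e x v) := (Cp.const 2).mul he
    have e21 : Cp (fun x v => 2 * e x v + 1) := e2.add (Cp.const 1)
    interval_cases c
    · exact cv_c4 h he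
    · exact cv_ty h he (cv_wm e21) (cv_pk h he) (cv_wm e2)
    · exact cv_ty h he (cv_pk h he) (cv_wm e21) (cv_q3 he)
    · exact cv_ty h he (cv_wm e2) (cv_wm e2) (cv_wm e21)
    · exact cv_c2 h he
    · exact cv_pk h he
    · exact cv_pa h he
    · exact cv_a5 he
    · exact hwr _ e2
    · exact hwm _ e2
    · exact hwl _ e2
    · exact hwr _ e21
    · exact hwm _ e21
    · exact hwl _ e21

include h in
theorem cv_R2 : CV (fun x v => (S x).R2 (Slp.dec (v 0))) := by
  refine cv_dec (fun x u => (S x).R2 u) (fun i hi => ?_) (fun c hc e he => ?_)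
  · interval_cases i
    · exact CV.const V
    · exact CV.const V
    · exact CV.const H
    · exact CV.const q0p
    · exact CV.const O
    · exact CV.const O
    · exact CV.const r0
    · exact CV.const O
    · exact CV.const B1
    · exact CV.const B1
    · exact cv_a5 h.N
    · exact CV.const B1
    · exact CV.const B1
    · exact CV.const M
    · exact CV.const M
    · exact CV.const O
  · have hwr : ∀ w : Fn, Cp w → CV (fun x v => (S x).R2 (wr (w x v))) := fun w hw => cv_wl hw
    have hwm : ∀ w : Fn, Cp w → CV (fun x v => (S x).R2 (wm (w x v))) := fun w hw => cv_wl hw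
    have hwl : ∀ w : Fn, Cp w → CV (fun x v => (S x).R2 (wl (w x v))) := fun w hw =>
      CV.ite (Cq.eq (hw.mod (Cp.const 2)) (Cp.const 0))
        (CV.ite (Cq.eq (hw.div (Cp.const 2)) (Cp.const 1)) (CV.const O)
          (cv_a5 ((hw.div (Cp.const 2)).sub (Cp.const 1))))
        (cv_a3 (hw.div (Cp.const 2)))
    have e2 : Cp (fun x v => 2 * e x v) := (Cp.const 2).mul he
    have e21 : Cp (fun x v => 2 * e x v + 1) := e2.add (Cp.const 1)
    interval_cases c
    · exact CV.ite (cq_ty h he .f) (cv_X he) (cv_wl e21)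
    · exact cv_ty h he (cv_wl e21) (cv_Y he) (cv_wl e2)
    · exact cv_ty h he (cv_Y he) (cv_wl e21) (cv_wl e21)
    · exact cv_ty h he (cv_wl e2) (cv_wl e2) (cv_wl e21)
    · exact cv_wl e2
    · exact cv_a5 he
    · exact CV.const O
    · exact CV.const O
    · exact hwr _ e2
    · exact hwm _ e2
    · exact hwl _ e2
    · exact hwr _ e21
    · exact hwm _ e21
    · exact hwl _ e21

/-- the first neighbour in the second graph -/
def g0 (u : Vx) : Vx :=
  match u with
  | .J => n
  | .n => B1
  | _ => V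

theorem nb2_eq (S : Slp) (u : Vx) : S.nb2 u = [g0 u, S.L2 u, S.R2 u] := by
  cases u <;> rfl

theorem cv_g0 : CV (fun _ v => g0 (Slp.dec (v 0))) := by
  refine cv_dec (fun _ u => g0 u) (fun i hi => CV.const _) (fun c hc e he => ?_)
  interval_cases c <;> exact CV.const V

include h in
theorem cq_nb1 : Cq (fun x v => v 0 ∈ ((S x).nb1 (Slp.dec (v 1))).map Slp.code) := by
  have h1 : Cp (fun x v => Slp.code ((S x).L1 (Slp.dec (v 1)))) := (cv_L1 h).rename (· + 1)
  have h2 : Cp (fun x v => Slp.code ((S x).R1 (Slp.dec (v 1)))) := (cv_R1 h).rename (· + 1)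
  refine ((Cq.eq (Cp.var 0) (Cp.const 1)).or ((Cq.eq (Cp.var 0) h1).or
    (Cq.eq (Cp.var 0) h2))).congr fun x v => ?_
  simp [Slp.nb1, show Slp.code H = 1 from rfl]

include h in
theorem cq_nb2 : Cq (fun x v => v 0 ∈ ((S x).nb2 (Slp.dec (v 1))).map Slp.code) := by
  have h0 : Cp (fun x v => Slp.code (g0 (Slp.dec (v 1)))) := cv_g0.rename (· + 1)
  have h1 : Cp (fun x v => Slp.code ((S x).L2 (Slp.dec (v 1)))) := (cv_L2 h).rename (· + 1)
  have h2 : Cp (fun x v => Slp.code ((S x).R2 (Slp.dec (v 1)))) := (cv_R2 h).rename (· + 1)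
  refine ((Cq.eq (Cp.var 0) h0).or ((Cq.eq (Cp.var 0) h1).or
    (Cq.eq (Cp.var 0) h2))).congr fun x v => ?_
  simp [nb2_eq]

/-- module M9b -/
theorem M9b (S : List Bool → Slp) (h0 : Cp (fun x _ => (S x).N))
    (h1 : ∀ t, Cq (fun x v => (S x).ty (v 0) = t))
    (h2 : Cp (fun x v => (S x).A (v 0))) (h3 : Cp (fun x v => (S x).B (v 0)))
    (h4 : Cq (fun x v => (S x).kA (v 0) = true)) (h5 : Cq (fun x v => (S x).kB (v 0) = true)) :
    De (fun x _ => (S x).inst) := by
  have h : CSlp S := ⟨h0, h1, h2, h3, h4, h5⟩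
  have hn : Cp (fun x v => (S x).nvx) := (Cp.const 16).add ((Cp.const 14).mul h0)
  refine De.map (F := fun x _ i => (List.range (S x).nvx).map fun j =>
    (decide (j ∈ ((S x).nb1 (Slp.dec i)).map Slp.code),
      decide (j ∈ ((S x).nb2 (Slp.dec i)).map Slp.code))) hn ?_
  refine De.map (F := fun x v j =>
    (decide (j ∈ ((S x).nb1 (Slp.dec (v 0))).map Slp.code),
      decide (j ∈ ((S x).nb2 (Slp.dec (v 0))).map Slp.code))) hn ?_
  exact De.pair (De.bool (cq_nb1 h)) (De.bool (cq_nb2 h))

end Pool.Agent.helper73.SGE
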